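import Pool.Agent.Run7.h106.AV.Asm
import Pool.Agent.Run7.h106.AW.Ang5

/-!
# Analytic continuation for products of functionals of product form and functionals with a
representation, relative to a free radius
-/

set_option autoImplicit false
set_option linter.unusedVariables false

namespace Run7.h106.AQ

open Pool.Agent.H976R2 Pool.Agent.H976R2.Dir Finset Filter Topology
open Pool.Agent.N929.EX Pool.Agent.N929.EY Pool.Agent.N929.EZ
open Pool.Agent.N929.AC (Om xx cs)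
open Pool.Agent.N738.AC (sum_pp avg_le consts)
open Run7.h106.AC Run7.h106.AV
open scoped Classical

noncomputable section

theorem ang6 (M c₀ : ℝ) (hM : 1 ≤ M) (hc₀ : 0 < c₀) :
    ∃ k : ℝ, 0 < k ∧ ∃ c₁ : ℝ, 0 < c₁ ∧ ∀ μ : ℝ, 1 ≤ μ → μ ≤ M →
    ∀ c : ℝ, 0 < c → c ≤ c₁ → ∀ z ∈ Om c μ 2, 0 < xx c μ 2 z ∧ (xx c μ 2 z < ‖z‖ →
      ‖z‖ ≤ xx c μ 2 z * Real.exp (c₀ * (k * (1 - cs 2 z))) ∧
      ∀ s : ℝ, 1 / 2 ≤ s → s ≤ 2 →
      ‖1 + (s : ℂ) * z ^ 2‖ ≤ (1 + s * xx c μ 2 z ^ 2) * Real.exp (-(k * (1 - cs 2 z))) ∧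
      1 ≤ (1 + s * xx c μ 2 z ^ 2) * Real.exp (-(k * (1 - cs 2 z)))) := by
  have hM0 : 0 < M := by linarith
  obtain ⟨k, hk⟩ : ∃ k : ℝ, k = ((2 * M) ^ 2)⁻¹ / 324 := ⟨_, rfl⟩
  have hk0 : 0 < k := by rw [hk]; positivity
  refine ⟨k, hk0, min (1 / 4) (min (c₀ * k / 4) (k / 8)), by positivity, ?_⟩
  intro μ hμ hμM c hc hc1 z hz
  have hμ0 : 0 < μ := by linarith
  have hca : c ≤ 1 / 4 := hc1.trans (min_le_left _ _)
  have hcb : 4 * c ≤ c₀ * k := by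
    have := hc1.trans ((min_le_right _ _).trans (min_le_left _ _))
    linarith
  have hcc : 8 * c ≤ k := by
    have := hc1.trans ((min_le_right _ _).trans (min_le_right _ _))
    linarith
  have habs := abs_le.1 (cs_abs 2 z)
  obtain ⟨u, hu⟩ : ∃ u, u = 1 - cs 2 z := ⟨_, rfl⟩
  have hu0 : 0 ≤ u := by rw [hu]; linarith [habs.2]
  have hu2 : u ≤ 2 := by rw [hu]; linarith [habs.1]
  have hcu : c * u ≤ 1 / 2 := by nlinarith
  have hcu0 : 0 ≤ c * u := mul_nonneg hc.le hu0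
  have hz' : μ * ‖z‖ < 1 + c * u := by
    rw [hu]
    exact hz
  rw [← hu]
  obtain ⟨x, hx⟩ : ∃ x, x = xx c μ 2 z := ⟨_, rfl⟩
  have hx' : x = (1 - c * u) / μ := by rw [hx, hu]; rfl
  rw [← hx]
  have hx1 : (2 * M)⁻¹ ≤ x := by
    have h1 : (2 * M)⁻¹ ≤ (2 * μ)⁻¹ := inv_anti₀ (by positivity) (by linarith)
    refine h1.trans ?_
    rw [hx', le_div_iff₀ hμ0]
    have : (2 * μ)⁻¹ * μ = 1 / 2 := by field_simp
    rw [this]
    linarith
  have hx0 : 0 < x := lt_of_lt_of_le (by positivity) hx1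
  refine ⟨hx0, fun hxz => ?_⟩
  have hz1 : ‖z‖ ≤ x * Real.exp (4 * (c * u)) := by
    have h1 : ‖z‖ ≤ (1 + c * u) / μ := by
      rw [le_div_iff₀ hμ0]
      linarith
    have h2 : 1 + c * u ≤ (1 - c * u) * Real.exp (4 * (c * u)) := by
      have h3 := Real.add_one_le_exp (4 * (c * u))
      have h4 : (1 - c * u) * (4 * (c * u) + 1) ≤ (1 - c * u) * Real.exp (4 * (c * u)) :=
        mul_le_mul_of_nonneg_left h3 (by linarith)
      nlinarith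
    calc ‖z‖ ≤ (1 + c * u) / μ := h1
      _ ≤ ((1 - c * u) * Real.exp (4 * (c * u))) / μ := by gcongr
      _ = x * Real.exp (4 * (c * u)) := by rw [hx']; ring
  have hlow : ∀ s : ℝ, 1 / 2 ≤ s → 1 ≤ (1 + s * x ^ 2) * Real.exp (-(k * u)) := by
    intro s hs1
    obtain ⟨a, ha⟩ : ∃ a : ℝ, a = ((2 * M) ^ 2)⁻¹ := ⟨_, rfl⟩
    have ha0 : 0 < a := by rw [ha]; positivity
    have ha1 : a ≤ 1 := by
      rw [ha]
      exact inv_le_one_of_one_le₀ (one_le_pow₀ (by linarith))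
    have hax : a ≤ x ^ 2 := by
      rw [ha, ← inv_pow]
      exact pow_le_pow_left₀ (by positivity) hx1 2
    have hk8 : 324 * k = a := by
      rw [hk, ← ha]
      ring
    have h5 := Real.add_one_le_exp (-(k * u))
    have h6 : 1 - 2 * k ≤ Real.exp (-(k * u)) := by nlinarith
    have h7 : 0 ≤ 1 - 2 * k := by linarith
    have h8 : a / 2 ≤ s * x ^ 2 := by nlinarith
    calc (1 : ℝ) ≤ (1 + a / 2) * (1 - 2 * k) := by nlinarith
      _ ≤ (1 + s * x ^ 2) * Real.exp (-(k * u)) := by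
          apply mul_le_mul (by linarith) h6 h7 (by positivity)
  refine ⟨hz1.trans ?_, fun s hs1 hs2 => ⟨?_, hlow s hs1⟩⟩
  · apply mul_le_mul_of_nonneg_left _ hx0.le
    apply Real.exp_le_exp.2
    nlinarith
  · have hz0 : 0 < ‖z‖ := hx0.trans hxz
    have hs0 : 0 < s := by linarith
    obtain ⟨y, hy⟩ : ∃ y, y = s * ‖z‖ ^ 2 := ⟨_, rfl⟩
    have hy0 : 0 < y := by rw [hy]; positivity
    have hre : ((s : ℂ) * z ^ 2).re = y * (1 - u) := by
      rw [Complex.re_ofReal_mul, hu, hy]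
      unfold cs
      field_simp
      ring
    have hsq : ‖1 + (s : ℂ) * z ^ 2‖ ^ 2 = (1 + y) ^ 2 - 2 * y * u := by
      have h1 : ‖(s : ℂ) * z ^ 2‖ ^ 2 = y ^ 2 := by
        rw [norm_mul, norm_pow, Complex.norm_real, Real.norm_of_nonneg hs0.le, hy]
      rw [Complex.sq_norm, Complex.normSq_apply] at h1 ⊢
      rw [Complex.add_re, Complex.add_im, Complex.one_re, Complex.one_im]
      rw [hre] at h1 ⊢
      linear_combination h1
    have h2 : ‖1 + (s : ℂ) * z ^ 2‖ ≤ (1 + y) * Real.exp (-(y * u / (1 + y) ^ 2)) := by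
      rw [← pow_le_pow_iff_left₀ (norm_nonneg _) (by positivity) two_ne_zero, hsq, mul_pow,
        ← Real.exp_nat_mul]
      have h3 := Real.add_one_le_exp (((2 : ℕ) : ℝ) * (-(y * u / (1 + y) ^ 2)))
      have h4 : (1 + y) ^ 2 * ((((2 : ℕ) : ℝ) * (-(y * u / (1 + y) ^ 2))) + 1) =
          (1 + y) ^ 2 - 2 * y * u := by
        push_cast
        field_simp
        ring
      rw [← h4]
      exact mul_le_mul_of_nonneg_left h3 (by positivity)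
    have h3 : 1 + y ≤ (1 + s * x ^ 2) * Real.exp (8 * (c * u)) := by
      have h4 : y ≤ (s * x ^ 2) * Real.exp (8 * (c * u)) := by
        have h6 : ‖z‖ ^ 2 ≤ (x * Real.exp (4 * (c * u))) ^ 2 :=
          pow_le_pow_left₀ hz0.le hz1 2
        have h7 : (x * Real.exp (4 * (c * u))) ^ 2 = x ^ 2 * Real.exp (8 * (c * u)) := by
          rw [mul_pow, ← Real.exp_nat_mul]
          congr 2
          push_cast
          ring
        rw [hy, mul_assoc]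
        exact mul_le_mul_of_nonneg_left (h6.trans (le_of_eq h7)) hs0.le
      have h5 : 1 ≤ Real.exp (8 * (c * u)) := Real.one_le_exp (by positivity)
      nlinarith
    have h4 : ((2 * M) ^ 2)⁻¹ / 2 ≤ y := by
      have h6 : ((2 * M) ^ 2)⁻¹ ≤ ‖z‖ ^ 2 := by
        rw [← inv_pow]
        exact pow_le_pow_left₀ (by positivity) (hx1.trans hxz.le) 2
      have h7 : 0 < ((2 * M) ^ 2)⁻¹ := by positivity
      rw [hy]
      nlinarith
    have h5 : y ≤ 8 := by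
      have h6 : ‖z‖ ≤ 2 := by nlinarith
      have h7 : ‖z‖ ^ 2 ≤ 4 := by nlinarith
      rw [hy]
      nlinarith
    have h6 : k + 8 * c ≤ y / (1 + y) ^ 2 := by
      have h7 : 2 * k ≤ y / (1 + y) ^ 2 := by
        have h8 : 2 * k = (((2 * M) ^ 2)⁻¹ / 2) / 81 := by
          rw [hk]
          ring
        have h9 : (1 + y) ^ 2 ≤ 81 := by nlinarith
        rw [h8]
        gcongr
      linarith
    calc ‖1 + (s : ℂ) * z ^ 2‖ ≤ (1 + y) * Real.exp (-(y * u / (1 + y) ^ 2)) := h2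
      _ ≤ ((1 + s * x ^ 2) * Real.exp (8 * (c * u))) * Real.exp (-((k + 8 * c) * u)) := by
          apply mul_le_mul h3 _ (Real.exp_nonneg _) (by positivity)
          apply Real.exp_le_exp.2
          have : (k + 8 * c) * u ≤ y / (1 + y) ^ 2 * u := mul_le_mul_of_nonneg_right h6 hu0
          rw [div_mul_eq_mul_div] at this
          linarith
      _ = (1 + s * x ^ 2) * Real.exp (-(k * u)) := by
          rw [mul_assoc, ← Real.exp_add]
          congr 2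
          ring


variable {L : Finset (ℤ × ℤ)} {st : List Dir → List Dir}
  {fl : List Dir → Finset (ℤ × ℤ) → List Dir} {N : ℕ}

/-- the bound for one class -/
theorem rp_boundQ {E : Finset (ℤ × ℤ)} {Φ : Finset (ℤ × ℤ) → ℝ} {M : ℝ} (h : Rp E Φ M)
    (y : ℤ × ℤ → ℂ) (β : ℤ × ℤ → ℝ) (hβ : ∀ q, 1 ≤ β q) (hy : ∀ q, ‖1 + y q‖ ≤ β q) :
    ‖∑ U ∈ E.powerset, (Φ U : ℂ) * ∏ q ∈ U, y q‖ ≤ M * ∏ q ∈ E, β q := by
  obtain ⟨v, h1, h2⟩ := h
  have e1 : ∑ U ∈ E.powerset, (Φ U : ℂ) * ∏ q ∈ U, y q =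
      ∑ T ∈ E.powerset, (v T : ℂ) * ∏ q ∈ E \ T, (1 + y q) := by
    have e2 : ∀ U ∈ E.powerset, (Φ U : ℂ) * ∏ q ∈ U, y q =
        ∑ T ∈ E.powerset, if Disjoint T U then (v T : ℂ) * ∏ q ∈ U, y q else 0 := by
      intro U hU
      rw [h2 U (mem_powerset.1 hU)]
      push_cast
      rw [sum_mul]
      refine sum_congr rfl fun T _ => ?_
      split_ifs <;> simp
    rw [sum_congr rfl e2, sum_comm]
    refine sum_congr rfl fun T _ => ?_
    rw [← sum_filter, Finset.prod_one_add, mul_sum]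
    refine sum_congr ?_ fun _ _ => rfl
    ext U
    rw [mem_filter, mem_powerset, mem_powerset, subset_sdiff]
    exact ⟨fun h => ⟨h.1, h.2.symm⟩, fun h => ⟨h.1, h.2.symm⟩⟩
  rw [e1]
  have hP : 0 ≤ ∏ q ∈ E, β q := prod_nonneg fun q _ => by linarith [hβ q]
  calc ‖∑ T ∈ E.powerset, (v T : ℂ) * ∏ q ∈ E \ T, (1 + y q)‖
      ≤ ∑ T ∈ E.powerset, ‖(v T : ℂ) * ∏ q ∈ E \ T, (1 + y q)‖ := norm_sum_le _ _
    _ ≤ ∑ T ∈ E.powerset, |v T| * ∏ q ∈ E, β q := by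
        refine sum_le_sum fun T _ => ?_
        rw [norm_mul, norm_prod, Complex.norm_real, Real.norm_eq_abs]
        refine mul_le_mul_of_nonneg_left ?_ (abs_nonneg _)
        refine (prod_le_prod (fun q _ => norm_nonneg _) fun q _ => hy q).trans ?_
        refine prod_le_prod_of_subset_of_one_le (sdiff_subset) (fun q _ => by linarith [hβ q])
          fun q _ _ => hβ q
    _ = (∑ T ∈ E.powerset, |v T|) * ∏ q ∈ E, β q := by rw [sum_mul]
    _ ≤ M * ∏ q ∈ E, β q := mul_le_mul_of_nonneg_right h1 hP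

/-- the functional `F` is on the classes of every family the product of a functional with a
representation and of factors for the slots -/
def HrQ (F : List Dir → ℝ) (b : ℕ → ℝ) (C₀ ρ : ℝ) (p : ℕ) : Prop :=
  ∀ L : Finset (ℤ × ℤ), CF L → ∀ st fl, Fill L 0 0 st fl →
    ∃ (M : List Dir → ℝ) (s : List Dir → ℤ × ℤ → ℝ), (∀ w, 0 ≤ M w) ∧
    (∀ w q, 1 / 2 ≤ s w q ∧ s w q ≤ 2) ∧
    (∀ w, Em L 0 0 w → M w ≤ C₀ * ((w.length : ℝ) + 1) ^ p * ρ ^ w.length) ∧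
    (∀ w, Em L 0 0 w → ∃ Φ, Rp (Sl L 0 0 w) Φ (M w) ∧
      ∀ U ⊆ Sl L 0 0 w, F (fl w U) = Φ U * ∏ q ∈ U, s w q) ∧
    ∀ n, ∑ w ∈ SW n, M (st w) * ∏ q ∈ Oc L 0 0 w, s (st w) q ≤ b n

/-- the bound outside the disc -/
theorem bndQ (h : Fill L 0 0 st fl) {F M : List Dir → ℝ} {s : List Dir → ℤ × ℤ → ℝ}
    {b : ℕ → ℝ} {C₀ ρ : ℝ}
    {p : ℕ} (hC₀ : 0 ≤ C₀) (hρ : 0 ≤ ρ) (hM : ∀ w, 0 ≤ M w)
    (hs0 : ∀ w q, 1 / 2 ≤ s w q ∧ s w q ≤ 2)
    (hMb : ∀ w, Em L 0 0 w → M w ≤ C₀ * ((w.length : ℝ) + 1) ^ p * ρ ^ w.length)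
    (hrep : ∀ w, Em L 0 0 w → ∃ Φ, Rp (Sl L 0 0 w) Φ (M w) ∧
      ∀ U ⊆ Sl L 0 0 w, F (fl w U) = Φ U * ∏ q ∈ U, s w q)
    (hMs : ∀ n, ∑ w ∈ SW n, M (st w) * ∏ q ∈ Oc L 0 0 w, s (st w) q ≤ b n) (z : ℂ) (x : ℝ) (hx : 0 ≤ x)
    (hs : Summable (fun n => b n * x ^ n)) (c₀ δ : ℝ) (hc₀ : 0 < c₀) (hδ : 0 ≤ δ)
    (h1 : ‖z‖ ≤ x * Real.exp (c₀ * δ))
    (h2 : ∀ s : ℝ, 1 / 2 ≤ s → s ≤ 2 →
      ‖1 + (s : ℂ) * z ^ 2‖ ≤ (1 + s * x ^ 2) * Real.exp (-δ) ∧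
      1 ≤ (1 + s * x ^ 2) * Real.exp (-δ)) :
    ‖PZ fl F L N z‖ ≤ (∑' n, b n * x ^ n) +
      ∑ m ∈ range (N + 1), (((SW m).filter
        (fun w => ((Sl L 0 0 w).card : ℝ) < c₀ * m)).card : ℝ) *
        (C₀ * ((m : ℝ) + 1) ^ p * (ρ * (‖z‖ * (1 + 2 * ‖z‖ ^ 2) ^ c₀)) ^ m) := by
  set B : ℝ := ρ * (‖z‖ * (1 + 2 * ‖z‖ ^ 2) ^ c₀) with hB
  have hB0 : 0 ≤ B := by positivity
  have hCo : ∀ w ∈ Cz L N, w ∈ SW w.length ∧ w.length ≤ N := fun w hw =>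
    ⟨(mem_Cz.1 hw).1.2.1, (mem_Cz.1 hw).2⟩
  have hterm : ∀ w ∈ Cz L N, ‖∑ U ∈ (Sl L 0 0 w).powerset,
      (F (fl w U) : ℂ) * z ^ (w.length + 2 * U.card)‖ ≤
      M w * x ^ w.length * (∏ q ∈ Sl L 0 0 w, (1 + s w q * x ^ 2)) +
      (if ((Sl L 0 0 w).card : ℝ) < c₀ * w.length then
        C₀ * ((w.length : ℝ) + 1) ^ p * B ^ w.length else 0) := by
    intro w hw
    have hwE := (mem_Cz.1 hw).1
    have hp0 : 0 ≤ ∏ q ∈ Sl L 0 0 w, (1 + s w q * x ^ 2) := prod_nonneg fun q _ => by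
      have := (hs0 w q).1
      positivity
    have hx1 : 0 ≤ M w * x ^ w.length * (∏ q ∈ Sl L 0 0 w, (1 + s w q * x ^ 2)) :=
      mul_nonneg (mul_nonneg (hM w) (by positivity)) hp0
    obtain ⟨Φ, hΦ1, hΦ2⟩ := hrep w hwE
    set l := w.length with hl
    set k := (Sl L 0 0 w).card with hk
    have hsplit : ∑ U ∈ (Sl L 0 0 w).powerset, (F (fl w U) : ℂ) * z ^ (l + 2 * U.card) =
        z ^ l * ∑ U ∈ (Sl L 0 0 w).powerset, (F (fl w U) : ℂ) * (z ^ 2) ^ U.card := by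
      rw [mul_sum]
      refine sum_congr rfl fun U _ => ?_
      rw [pow_add, pow_mul]
      ring
    split_ifs with hlt
    · have e0 : ‖∑ U ∈ (Sl L 0 0 w).powerset, (F (fl w U) : ℂ) * (z ^ 2) ^ U.card‖ ≤
          M w * (1 + 2 * ‖z‖ ^ 2) ^ k := by
        rw [← pow_expand, mul_sum]
        refine (norm_sum_le _ _).trans (sum_le_sum fun U hU => ?_)
        rw [mem_powerset] at hU
        rw [norm_mul, norm_pow, norm_pow, Complex.norm_real, Real.norm_eq_abs, hΦ2 U hU, abs_mul,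
          mul_pow 2, mul_assoc]
        refine mul_le_mul (rp_abs hΦ1 hU) (mul_le_mul_of_nonneg_right ?_ (by positivity))
          (by positivity) (hM w)
        rw [abs_of_nonneg (prod_nonneg fun q _ => by
          have := (hs0 w q).1
          linarith), ← prod_const]
        exact prod_le_prod (fun q _ => by
          have := (hs0 w q).1
          linarith) fun q _ => (hs0 w q).2
      have hbase : 1 ≤ 1 + 2 * ‖z‖ ^ 2 := by
        have : 0 ≤ 2 * ‖z‖ ^ 2 := by positivity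
        linarith
      have e2 : (1 + 2 * ‖z‖ ^ 2) ^ k ≤ ((1 + 2 * ‖z‖ ^ 2) ^ c₀) ^ l := by
        calc (1 + 2 * ‖z‖ ^ 2) ^ k = (1 + 2 * ‖z‖ ^ 2) ^ (k : ℝ) := (Real.rpow_natCast _ _).symm
          _ ≤ (1 + 2 * ‖z‖ ^ 2) ^ (c₀ * l) := Real.rpow_le_rpow_of_exponent_le hbase hlt.le
          _ = ((1 + 2 * ‖z‖ ^ 2) ^ c₀) ^ l := by
              rw [Real.rpow_mul (by linarith), Real.rpow_natCast]
      have e3 : ‖z‖ ^ l * (M w * (1 + 2 * ‖z‖ ^ 2) ^ k) ≤ C₀ * ((l : ℝ) + 1) ^ p * B ^ l := by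
        have e5 := hMb w hwE
        rw [← hl] at e5
        rw [hB, mul_pow ρ, mul_pow ‖z‖]
        calc ‖z‖ ^ l * (M w * (1 + 2 * ‖z‖ ^ 2) ^ k)
            = M w * (‖z‖ ^ l * (1 + 2 * ‖z‖ ^ 2) ^ k) := by ring
          _ ≤ (C₀ * ((l : ℝ) + 1) ^ p * ρ ^ l) * (‖z‖ ^ l * ((1 + 2 * ‖z‖ ^ 2) ^ c₀) ^ l) :=
              mul_le_mul e5 (mul_le_mul_of_nonneg_left e2 (by positivity)) (by positivity)
                (by positivity)
          _ = _ := by ring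
      rw [hsplit, norm_mul, norm_pow]
      have e4 := mul_le_mul_of_nonneg_left e0 (show 0 ≤ ‖z‖ ^ l by positivity)
      linarith
    · have hge : c₀ * l ≤ k := not_lt.1 hlt
      rw [add_zero, hsplit, norm_mul, norm_pow]
      have e0 : ‖∑ U ∈ (Sl L 0 0 w).powerset, (F (fl w U) : ℂ) * (z ^ 2) ^ U.card‖ ≤
          M w * ((∏ q ∈ Sl L 0 0 w, (1 + s w q * x ^ 2)) * Real.exp (-δ) ^ k) := by
        have e5 : ∑ U ∈ (Sl L 0 0 w).powerset, (F (fl w U) : ℂ) * (z ^ 2) ^ U.card =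
            ∑ U ∈ (Sl L 0 0 w).powerset, (Φ U : ℂ) * ∏ q ∈ U, ((s w q : ℂ) * z ^ 2) := by
          refine sum_congr rfl fun U hU => ?_
          rw [hΦ2 U (mem_powerset.1 hU), Finset.prod_mul_distrib, Finset.prod_const]
          push_cast
          ring
        have e6 : (∏ q ∈ Sl L 0 0 w, (1 + s w q * x ^ 2)) * Real.exp (-δ) ^ k =
            ∏ q ∈ Sl L 0 0 w, ((1 + s w q * x ^ 2) * Real.exp (-δ)) := by
          rw [Finset.prod_mul_distrib, Finset.prod_const]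
        rw [e5, e6]
        exact rp_boundQ hΦ1 _ _ (fun q => (h2 _ (hs0 w q).1 (hs0 w q).2).2)
          (fun q => (h2 _ (hs0 w q).1 (hs0 w q).2).1)
      have e1 : ‖z‖ ^ l ≤ (x * Real.exp (c₀ * δ)) ^ l := pow_le_pow_left₀ (norm_nonneg _) h1 _
      have e4 : Real.exp (c₀ * δ) ^ l * Real.exp (-δ) ^ k ≤ 1 := by
        rw [← Real.exp_nat_mul, ← Real.exp_nat_mul, ← Real.exp_add]
        rw [Real.exp_le_one_iff]
        have : c₀ * l * δ ≤ k * δ := mul_le_mul_of_nonneg_right hge hδ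
        linarith
      calc ‖z‖ ^ l * ‖∑ U ∈ (Sl L 0 0 w).powerset, (F (fl w U) : ℂ) * (z ^ 2) ^ U.card‖
          ≤ (x * Real.exp (c₀ * δ)) ^ l *
            (M w * ((∏ q ∈ Sl L 0 0 w, (1 + s w q * x ^ 2)) * Real.exp (-δ) ^ k)) :=
            mul_le_mul e1 e0 (norm_nonneg _) (by positivity)
        _ = M w * x ^ l * (∏ q ∈ Sl L 0 0 w, (1 + s w q * x ^ 2)) *
            (Real.exp (c₀ * δ) ^ l * Real.exp (-δ) ^ k) := by
            rw [mul_pow]; ring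
        _ ≤ M w * x ^ l * (∏ q ∈ Sl L 0 0 w, (1 + s w q * x ^ 2)) * 1 :=
            mul_le_mul_of_nonneg_left e4 hx1
        _ = _ := mul_one _
  have hMst : ∀ n, ∀ w ∈ SW n, 0 ≤ M (st w) * ∏ q ∈ Oc L 0 0 w, s (st w) q := fun n w _ =>
    mul_nonneg (hM _) (prod_nonneg fun q _ => by
      have := (hs0 (st w) q).1
      linarith)
  have hfirst : ∑ w ∈ Cz L N, M w * x ^ w.length * (∏ q ∈ Sl L 0 0 w, (1 + s w q * x ^ 2)) ≤
      ∑' n, b n * x ^ n := by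
    have e7 : ∑ w ∈ Cz L N, M w * x ^ w.length * (∏ q ∈ Sl L 0 0 w, (1 + s w q * x ^ 2)) =
        ∑ v ∈ TZ fl L N, (M (st v) * ∏ q ∈ Oc L 0 0 v, s (st v) q) * x ^ v.length := by
      rw [sumTZ h]
      refine sum_congr rfl fun w hw => ?_
      rw [Finset.prod_one_add, mul_sum]
      refine sum_congr rfl fun U hU => ?_
      rw [mem_powerset] at hU
      rw [h.fl_len w U (mem_Cz.1 hw).1 hU, h.st_fl w U (mem_Cz.1 hw).1 hU,
        h.fl_oc w U (mem_Cz.1 hw).1 hU, Finset.prod_mul_distrib, Finset.prod_const, pow_add,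
        pow_mul]
      ring
    rw [e7]
    have h6 := grp (fun w => M (st w) * ∏ q ∈ Oc L 0 0 w, s (st w) q) hMst b hMs (TZ fl L N) 0
      (fun w hw => ⟨TZ_mem h hw, Nat.zero_le _⟩) x hx hs
    simpa only [Nat.add_zero] using h6
  have hsec : ∑ w ∈ Cz L N,
      (if ((Sl L 0 0 w).card : ℝ) < c₀ * w.length then
        C₀ * ((w.length : ℝ) + 1) ^ p * B ^ w.length else 0) ≤
      ∑ m ∈ range (N + 1), (((SW m).filter
        (fun w => ((Sl L 0 0 w).card : ℝ) < c₀ * m)).card : ℝ) *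
        (C₀ * ((m : ℝ) + 1) ^ p * B ^ m) := by
    rw [← Finset.sum_filter]
    have hdisj : Set.PairwiseDisjoint (↑(range (N + 1)) : Set ℕ) (fun m => (SW m).filter
        (fun w => ((Sl L 0 0 w).card : ℝ) < c₀ * m)) := by
      intro m _ m' _ hne
      rw [Function.onFun, Finset.disjoint_left]
      intro w hw hw'
      rw [Finset.mem_filter] at hw hw'
      exact hne ((len_SW hw.1).symm.trans (len_SW hw'.1))
    have hinner : ∑ m ∈ range (N + 1), (((SW m).filter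
        (fun w => ((Sl L 0 0 w).card : ℝ) < c₀ * m)).card : ℝ) *
        (C₀ * ((m : ℝ) + 1) ^ p * B ^ m) =
        ∑ w ∈ (range (N + 1)).biUnion (fun m => (SW m).filter
        (fun w => ((Sl L 0 0 w).card : ℝ) < c₀ * m)),
          C₀ * ((w.length : ℝ) + 1) ^ p * B ^ w.length := by
      rw [Finset.sum_biUnion hdisj]
      refine Finset.sum_congr rfl (fun m _ => ?_)
      rw [← nsmul_eq_mul, ← sum_const]
      refine Finset.sum_congr rfl (fun w hw => ?_)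
      rw [len_SW (Finset.mem_filter.1 hw).1]
    rw [hinner]
    refine Finset.sum_le_sum_of_subset_of_nonneg ?_ ?_
    · intro w hw
      rw [Finset.mem_filter] at hw
      obtain ⟨hw1, hw2⟩ := hCo w hw.1
      rw [Finset.mem_biUnion]
      exact ⟨w.length, Finset.mem_range.2 (by omega), Finset.mem_filter.2 ⟨hw1, hw.2⟩⟩
    · intro w hw _
      positivity
  unfold PZ
  calc ‖∑ w ∈ Cz L N, ∑ U ∈ (Sl L 0 0 w).powerset,
        (F (fl w U) : ℂ) * z ^ (w.length + 2 * U.card)‖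
      ≤ ∑ w ∈ Cz L N, ‖∑ U ∈ (Sl L 0 0 w).powerset,
        (F (fl w U) : ℂ) * z ^ (w.length + 2 * U.card)‖ := norm_sum_le _ _
    _ ≤ ∑ w ∈ Cz L N, (M w * x ^ w.length * (∏ q ∈ Sl L 0 0 w, (1 + s w q * x ^ 2)) +
      (if ((Sl L 0 0 w).card : ℝ) < c₀ * w.length then
        C₀ * ((w.length : ℝ) + 1) ^ p * B ^ w.length else 0)) :=
        Finset.sum_le_sum hterm
    _ = ∑ w ∈ Cz L N, M w * x ^ w.length * (∏ q ∈ Sl L 0 0 w, (1 + s w q * x ^ 2)) +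
      ∑ w ∈ Cz L N, (if ((Sl L 0 0 w).card : ℝ) < c₀ * w.length then
        C₀ * ((w.length : ℝ) + 1) ^ p * B ^ w.length else 0) :=
        Finset.sum_add_distrib
    _ ≤ _ := add_le_add hfirst hsec

/-- the average over the families -/
theorem ex_PQ (μ c₀ θ C C₀ ρ : ℝ) (p : ℕ) (hρ : 0 ≤ ρ)
    (hc₀ : 0 < c₀) (hθ : 0 < θ) (hμ : 1 ≤ μ) (hC : 0 < C) (hC₀ : 0 ≤ C₀) (θ₂ : ℝ)
    (h20 : 0 ≤ θ₂) (h21 : θ₂ < 1) (F : List Dir → ℝ) (b : ℕ → ℝ)
    (hb : ∀ n, ∑ w ∈ SW n, |F w| ≤ b n)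
    (hr : HrQ F b C₀ ρ p) (N : ℕ)
    (ι : Type) [Fintype ι] [Nonempty ι] (Λ : ι → Finset (ℤ × ℤ)) (hCF : ∀ i, CF (Λ i))
    (hfew : ∀ m ≤ N, ∑ i, (((SW m).filter
      (fun w => ((Sl (Λ i) 0 0 w).card : ℝ) < c₀ * m)).card : ℝ) ≤
        C * (θ * μ) ^ m * Fintype.card ι) :
    ∃ P : ℂ → ℂ, Differentiable ℂ P ∧
      (∀ (z : ℂ) (x : ℝ), 0 ≤ x → Summable (fun n => b n * x ^ n) → ‖z‖ ≤ x →
        ‖P z‖ ≤ ∑' n, b n * x ^ n) ∧
      (∀ (z : ℂ) (x δ : ℝ), 0 ≤ x → Summable (fun n => b n * x ^ n) → 0 ≤ δ →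
        ‖z‖ ≤ x * Real.exp (c₀ * δ) → (∀ s : ℝ, 1 / 2 ≤ s → s ≤ 2 →
          ‖1 + (s : ℂ) * z ^ 2‖ ≤ (1 + s * x ^ 2) * Real.exp (-δ) ∧
          1 ≤ (1 + s * x ^ 2) * Real.exp (-δ)) →
        θ * μ * (ρ * (‖z‖ * (1 + 2 * ‖z‖ ^ 2) ^ c₀)) ≤ θ₂ →
        ‖P z‖ ≤ (∑' n, b n * x ^ n) +
          ∑' m : ℕ, C₀ * C * (((m : ℝ) + 1) ^ p * θ₂ ^ m)) ∧
      (∀ z : ℂ, Summable (fun n => b n * ‖z‖ ^ n) →
        ‖P z - ∑ n ∈ range (N + 1), (az F n : ℂ) * z ^ n‖ ≤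
          ∑' n, b (n + (N + 1)) * ‖z‖ ^ (n + (N + 1))) := by
  have hcard : (0 : ℝ) < Fintype.card ι := by exact_mod_cast Fintype.card_pos
  have hcardC : (Fintype.card ι : ℂ) ≠ 0 := by exact_mod_cast hcard.ne'
  have hbij : ∀ i, ∃ (st : List Dir → List Dir) (fl : List Dir → Finset (ℤ × ℤ) → List Dir),
      Fill (Λ i) 0 0 st fl := fun i => s_bij (Λ i) (hCF i) 0 0
  choose st fl hfl using hbij
  have hM' := fun i => hr (Λ i) (hCF i) (st i) (fl i) (hfl i)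
  choose M s hM0 hs0 hM3 hM1 hM2 using hM'
  refine ⟨fun z => (Fintype.card ι : ℂ)⁻¹ * ∑ i, PZ (fl i) F (Λ i) N z, ?_, ?_, ?_, ?_⟩
  · unfold PZ
    fun_prop
  · intro z x hx hs hz
    refine (avg_le _ (fun _ => ∑' n, b n * x ^ n) fun i =>
      bnd1 (hfl i) hb z x hx hs hz).trans (le_of_eq ?_)
    rw [Finset.sum_const, Finset.card_univ, nsmul_eq_mul, ← mul_assoc, inv_mul_cancel₀ hcard.ne',
      one_mul]
  · intro z x δ hx hs hδ h1 h2 h3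
    set y : ℝ := ρ * (‖z‖ * (1 + 2 * ‖z‖ ^ 2) ^ c₀) with hy
    have hy0 : 0 ≤ y := by positivity
    set T : ℝ := ∑' n, b n * x ^ n with hT
    refine (avg_le _ (fun i => T + ∑ m ∈ range (N + 1), (((SW m).filter
      (fun w => ((Sl (Λ i) 0 0 w).card : ℝ) < c₀ * m)).card : ℝ) *
        (C₀ * ((m : ℝ) + 1) ^ p * y ^ m)) fun i =>
      bndQ (hfl i) hC₀ hρ (hM0 i) (hs0 i) (hM3 i) (hM1 i) (hM2 i) z x hx hs c₀ δ hc₀ hδ h1 h2).trans ?_
    rw [Finset.sum_add_distrib, Finset.sum_const, Finset.card_univ, nsmul_eq_mul, mul_add,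
      ← mul_assoc, inv_mul_cancel₀ hcard.ne', one_mul]
    refine add_le_add le_rfl ?_
    rw [inv_mul_le_iff₀ hcard, Finset.sum_comm]
    have hsum : Summable (fun m : ℕ => C₀ * C * (((m : ℝ) + 1) ^ p * θ₂ ^ m)) :=
      (sum_pp p θ₂ h20 h21).mul_left _
    have h4 : ∑ m ∈ range (N + 1), C₀ * C * (((m : ℝ) + 1) ^ p * θ₂ ^ m)
        ≤ ∑' m : ℕ, C₀ * C * (((m : ℝ) + 1) ^ p * θ₂ ^ m) :=
      hsum.sum_le_tsum _ fun m _ => by positivity
    refine le_trans ?_ (mul_le_mul_of_nonneg_left h4 hcard.le)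
    rw [Finset.mul_sum]
    refine Finset.sum_le_sum fun m hm => ?_
    have hmN : m ≤ N := by
      have := Finset.mem_range.1 hm
      omega
    calc ∑ i, (((SW m).filter (fun w => ((Sl (Λ i) 0 0 w).card : ℝ) < c₀ * m)).card : ℝ) *
            (C₀ * ((m : ℝ) + 1) ^ p * y ^ m)
        = (∑ i, (((SW m).filter (fun w => ((Sl (Λ i) 0 0 w).card : ℝ) < c₀ * m)).card : ℝ)) *
            (C₀ * ((m : ℝ) + 1) ^ p * y ^ m) := by rw [Finset.sum_mul]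
      _ ≤ (C * (θ * μ) ^ m * Fintype.card ι) * (C₀ * ((m : ℝ) + 1) ^ p * y ^ m) :=
          mul_le_mul_of_nonneg_right (hfew m hmN) (by positivity)
      _ = Fintype.card ι * (C₀ * C * (((m : ℝ) + 1) ^ p * (θ * μ * y) ^ m)) := by
          rw [mul_pow (θ * μ) y m]
          ring
      _ ≤ Fintype.card ι * (C₀ * C * (((m : ℝ) + 1) ^ p * θ₂ ^ m)) := by
          refine mul_le_mul_of_nonneg_left (mul_le_mul_of_nonneg_left
            (mul_le_mul_of_nonneg_left (pow_le_pow_left₀ (by positivity) h3 m) (by positivity))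
            (by positivity)) hcard.le
  · intro z hs
    have h1 : (Fintype.card ι : ℂ)⁻¹ * ∑ i, PZ (fl i) F (Λ i) N z -
        ∑ n ∈ range (N + 1), (az F n : ℂ) * z ^ n =
        (Fintype.card ι : ℂ)⁻¹ * ∑ i, (PZ (fl i) F (Λ i) N z -
          ∑ n ∈ range (N + 1), (az F n : ℂ) * z ^ n) := by
      rw [Finset.sum_sub_distrib, Finset.sum_const, Finset.card_univ, nsmul_eq_mul, mul_sub,
        ← mul_assoc _ (Fintype.card ι : ℂ), inv_mul_cancel₀ hcardC, one_mul]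
    simp only []
    rw [h1]
    refine (avg_le _ (fun _ => ∑' n, b (n + (N + 1)) * ‖z‖ ^ (n + (N + 1))) fun i =>
      cnv (hfl i) hb z hs).trans (le_of_eq ?_)
    rw [Finset.sum_const, Finset.card_univ, nsmul_eq_mul, ← mul_assoc, inv_mul_cancel₀ hcard.ne',
      one_mul]

/-- analytic continuation -/
theorem acQ {M K : ℝ} (hM : 2 ≤ M) (hK : 0 ≤ K) (hupp : ∀ m n : ℕ, 2 ≤ n → m ≤ n →
      ((SW m).card : ℝ) ≤ 4 * (M ^ m * Real.exp (K * Real.log n ^ 2))) :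
    ∃ κ : ℝ, 1 < κ ∧ κ ≤ 2 ∧ ∃ c : ℝ, 0 < c ∧ c ≤ 1 / 4 ∧
      ∀ (C₀ : ℝ) (p : ℕ), 0 ≤ C₀ → ∃ C : ℝ, 0 < C ∧
      ∀ μ : ℝ, 1 ≤ μ → M ≤ κ * μ → μ ≤ κ * M → ∀ (F : List Dir → ℝ) (b : ℕ → ℝ),
      (∀ n, ∑ w ∈ SW n, |F w| ≤ b n) →
      (∀ x : ℝ, 0 ≤ x → μ * x < 1 → Summable (fun n => b n * x ^ n)) → HrQ F b C₀ κ p →
      ∃ f : ℂ → ℂ, DifferentiableOn ℂ f (Om c μ 2) ∧
        (∀ z : ℂ, μ * ‖z‖ < 1 → HasSum (fun n => (az F n : ℂ) * z ^ n) (f z)) ∧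
        ∀ z ∈ Om c μ 2, z ≠ 0 → cs 2 z < 1 →
          Summable (fun n => b n * xx c μ 2 z ^ n) ∧
          ‖f z‖ ≤ C + ∑' n, b n * xx c μ 2 z ^ n := by
  have hM1 : 1 ≤ M := by linarith
  have hM0 : 0 < M := by linarith
  obtain ⟨c₀, θ, C, hc₀, hθ, hθ1, hC, hfewN⟩ := fewz hM1 hK hupp
  obtain ⟨κ, hκ1, hκ2, hκθ⟩ : ∃ κ : ℝ, 1 < κ ∧ κ ≤ 2 ∧ κ * κ * θ < 1 := by
    obtain ⟨κ₂, hκ2d⟩ : ∃ κ₂ : ℝ, κ₂ = min 2 ((1 + 1 / θ) / 2) := ⟨_, rfl⟩
    have hκ21 : 1 < κ₂ := by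
      have h1 : 1 < 1 / θ := by rw [lt_div_iff₀ hθ]; linarith
      rw [hκ2d]
      exact lt_min (by norm_num) (by linarith)
    have hκ22 : κ₂ ≤ 2 := by rw [hκ2d]; exact min_le_left _ _
    have hκ2θ : κ₂ * θ < 1 := by
      have h1 := mul_le_mul_of_nonneg_right (min_le_right 2 ((1 + 1 / θ) / 2)) hθ.le
      rw [← hκ2d] at h1
      have h2 : (1 + 1 / θ) / 2 * θ = (θ + 1) / 2 := by field_simp; try ring
      linarith
    refine ⟨Real.sqrt κ₂, ?_, ?_, ?_⟩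
    · rw [Real.lt_sqrt (by norm_num)]
      linarith
    · rw [Real.sqrt_le_left (by norm_num)]
      linarith
    · rw [Real.mul_self_sqrt (by linarith)]
      exact hκ2θ
  have hκ0 : 0 < κ := by linarith
  obtain ⟨c₀', c₂, θ₂, hc₀', hcc, hc₂, h20, h21, hθ₂⟩ :=
    consts (κ * κ * θ) c₀ 3 (by positivity) hκθ hc₀
  obtain ⟨k, hk, c₁, hc₁, hangc⟩ :=
    ang6 (κ * M) c₀' (by nlinarith) hc₀'
  set c : ℝ := min (min c₁ (1 / 4)) c₂ with hcdef
  have hc : 0 < c := lt_min (lt_min hc₁ (by norm_num)) hc₂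
  have hcc1 : c ≤ c₁ := (min_le_left _ _).trans (min_le_left _ _)
  have hc4 : c ≤ 1 / 4 := (min_le_left _ _).trans (min_le_right _ _)
  have hcc2 : c ≤ c₂ := min_le_right _ _
  refine ⟨κ, hκ1, hκ2, c, hc, hc4, fun C₀ p hC₀ => ?_⟩
  have hsum2 : Summable (fun m : ℕ => C₀ * C * (((m : ℝ) + 1) ^ p * θ₂ ^ m)) :=
    (sum_pp p θ₂ h20 h21).mul_left _
  set D : ℝ := ∑' m : ℕ, C₀ * C * (((m : ℝ) + 1) ^ p * θ₂ ^ m) with hD
  have hD0 : 0 ≤ D := tsum_nonneg fun m => by positivity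
  refine ⟨1 + D, by linarith, fun μ hμ hMμ hμM F b hb hS hr => ?_⟩
  have hμ0 : 0 < μ := by linarith
  have hangc := hangc μ hμ hμM
  obtain ⟨hO1, hO2, hO3, hcs, hcsc⟩ := Pool.Agent.N189.AC.omg c μ 2 hc hμ (by norm_num)
  have haa : ∀ n, 0 ≤ b n := fun n => (Finset.sum_nonneg fun _ _ => abs_nonneg _).trans (hb n)
  -- the polynomials
  have hexP : ∀ N : ℕ, ∃ P : ℂ → ℂ, Differentiable ℂ P ∧
      (∀ (z : ℂ) (x : ℝ), 0 ≤ x → Summable (fun n => b n * x ^ n) → ‖z‖ ≤ x →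
        ‖P z‖ ≤ ∑' n, b n * x ^ n) ∧
      (∀ (z : ℂ) (x δ : ℝ), 0 ≤ x → Summable (fun n => b n * x ^ n) → 0 ≤ δ →
        ‖z‖ ≤ x * Real.exp (c₀' * δ) → (∀ s : ℝ, 1 / 2 ≤ s → s ≤ 2 →
          ‖1 + (s : ℂ) * z ^ 2‖ ≤ (1 + s * x ^ 2) * Real.exp (-δ) ∧
          1 ≤ (1 + s * x ^ 2) * Real.exp (-δ)) →
        θ * M * (κ * (‖z‖ * (1 + 2 * ‖z‖ ^ 2) ^ c₀')) ≤ θ₂ →
        ‖P z‖ ≤ (∑' n, b n * x ^ n) + D) ∧
      (∀ z : ℂ, Summable (fun n => b n * ‖z‖ ^ n) →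
        ‖P z - ∑ n ∈ range (N + 1), (az F n : ℂ) * z ^ n‖ ≤
          ∑' n, b (n + (N + 1)) * ‖z‖ ^ (n + (N + 1))) := by
    intro N
    obtain ⟨ι, i1, i2, Λ, hCF, hL⟩ := hfewN N
    refine ex_PQ M c₀' θ C C₀ κ p hκ0.le hc₀' hθ hM1 hC hC₀ θ₂ h20 h21 F b hb hr N ι Λ hCF
      fun m hm => ?_
    refine le_trans (Finset.sum_le_sum fun i _ => ?_) (hL m hm)
    have h1 : (SW m).filter (fun w => ((Sl (Λ i) 0 0 w).card : ℝ) < c₀' * m) ⊆
        (SW m).filter (fun w => ((Sl (Λ i) 0 0 w).card : ℝ) < c₀ * m) := by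
      intro w hw
      rw [Finset.mem_filter] at hw ⊢
      refine ⟨hw.1, hw.2.trans_le ?_⟩
      exact mul_le_mul_of_nonneg_right hcc (Nat.cast_nonneg m)
    exact_mod_cast Finset.card_le_card h1
  choose P hP1 hP2 hP3 hP4 using hexP
  -- the size of the points of the domain
  have hsize : ∀ z ∈ Om c μ 2, θ * M * (κ * (‖z‖ * (1 + 2 * ‖z‖ ^ 2) ^ c₀')) ≤ θ₂ := by
    intro z hz
    have h1 : μ * ‖z‖ < 1 + c * (1 - cs 2 z) := hz
    have h2 := abs_le.1 (hcs z)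
    have h3 : μ * ‖z‖ ≤ 1 + 2 * c := by nlinarith [h2.1]
    have h4 : ‖z‖ ≤ 2 := by
      have h5 : ‖z‖ ≤ μ * ‖z‖ := by nlinarith [norm_nonneg z]
      linarith
    have h5 : (1 + 2 * ‖z‖ ^ 2) ^ c₀' ≤ (1 + 2 ^ 3 : ℝ) ^ c₀' := by
      refine Real.rpow_le_rpow (by positivity) ?_ hc₀'.le
      have := pow_le_pow_left₀ (norm_nonneg z) h4 2
      linarith
    have h6 : M * ‖z‖ ≤ κ * (1 + 2 * c) := by
      have h7 : M * ‖z‖ ≤ κ * μ * ‖z‖ := mul_le_mul_of_nonneg_right hMμ (norm_nonneg z)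
      have h8 : κ * μ * ‖z‖ = κ * (μ * ‖z‖) := by ring
      have h9 : κ * (μ * ‖z‖) ≤ κ * (1 + 2 * c) := mul_le_mul_of_nonneg_left h3 (by linarith)
      linarith
    have h7 : κ * (M * ‖z‖) ≤ κ * (κ * (1 + 2 * c)) := mul_le_mul_of_nonneg_left h6 hκ0.le
    calc θ * M * (κ * (‖z‖ * (1 + 2 * ‖z‖ ^ 2) ^ c₀'))
        = θ * ((κ * (M * ‖z‖)) * (1 + 2 * ‖z‖ ^ 2) ^ c₀') := by ring
      _ ≤ θ * ((κ * (κ * (1 + 2 * c))) * (1 + 2 ^ 3) ^ c₀') := by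
          refine mul_le_mul_of_nonneg_left (mul_le_mul h7 h5 (by positivity) (by positivity)) hθ.le
      _ = κ * κ * θ * ((1 + 2 * c) * (1 + 2 ^ 3) ^ c₀') := by ring
      _ ≤ θ₂ := hθ₂ c hc hcc2
  have hxx : ∀ z : ℂ, μ * xx c μ 2 z = 1 - c * (1 - cs 2 z) := by
    intro z
    unfold xx
    field_simp
  have hxs : ∀ z ∈ Om c μ 2, cs 2 z < 1 → Summable (fun n => b n * xx c μ 2 z ^ n) := by
    intro z hz hz1
    refine hS _ (hangc c hc hcc1 z hz).1.le ?_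
    rw [hxx]
    nlinarith
  -- the bound
  have hB : ∀ N, ∀ z ∈ Om c μ 2, cs 2 z < 1 →
      ‖P N z‖ ≤ (∑' n, b n * xx c μ 2 z ^ n) + D := by
    intro N z hz hz1
    obtain ⟨hx0, hx1⟩ := hangc c hc hcc1 z hz
    have hs := hxs z hz hz1
    rcases le_or_gt ‖z‖ (xx c μ 2 z) with h | h
    · have := hP2 N z _ hx0.le hs h
      linarith
    · obtain ⟨h1, h2⟩ := hx1 h
      have := hP3 N z _ (k * (1 - cs 2 z)) hx0.le hs
        (mul_nonneg hk.le (by linarith)) h1 h2 (hsize z hz)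
      linarith
  -- local boundedness
  have hloc : ∀ z ∈ Om c μ 2, ∃ r B : ℝ, 0 < r ∧
      ∀ N, ∀ z' ∈ Metric.ball z r ∩ Om c μ 2, ‖P N z'‖ ≤ B := by
    intro z hz
    rcases lt_or_ge (μ * ‖z‖) 1 with h | h
    · have h1 : ‖z‖ < 1 / μ := by
        rw [lt_div_iff₀ hμ0, mul_comm]
        exact h
      obtain ⟨x, hx1, hx2⟩ := exists_between h1
      have hx0 : 0 ≤ x := (norm_nonneg z).trans hx1.le
      have hx3 : μ * x < 1 := by
        rw [lt_div_iff₀ hμ0, mul_comm] at hx2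
        exact hx2
      refine ⟨x - ‖z‖, ∑' n, b n * x ^ n, by linarith, fun N z' hz' => ?_⟩
      refine hP2 N z' x hx0 (hS x hx0 hx3) ?_
      have h2 : dist z' z < x - ‖z‖ := hz'.1
      rw [dist_eq_norm] at h2
      have h3 : ‖z'‖ ≤ ‖z' - z‖ + ‖z‖ := by
        have := norm_add_le (z' - z) z
        rwa [sub_add_cancel] at this
      linarith
    · have hz0 : z ≠ 0 := by
        rintro rfl
        simp at h
        linarith
      have hz1 : cs 2 z < 1 := by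
        have h1 : μ * ‖z‖ < 1 + c * (1 - cs 2 z) := hz
        by_contra h2
        push Not at h2
        nlinarith
      set q : ℝ := (1 + cs 2 z) / 2 with hq
      have hq1 : cs 2 z < q := by rw [hq]; linarith
      have hq2 : q < 1 := by rw [hq]; linarith
      have h1 : ∀ᶠ z' in 𝓝 z, cs 2 z' < q := (hcsc z hz0).eventually_lt_const hq1
      obtain ⟨r, hr, hr1⟩ := Metric.eventually_nhds_iff.1 h1
      have hcz := abs_le.1 (hcs z)
      have hX0 : 0 ≤ (1 - c * (1 - q)) / μ := by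
        refine div_nonneg ?_ hμ0.le
        have : c * (1 - q) ≤ 1 / 4 * 1 :=
          mul_le_mul hc4 (by rw [hq]; linarith [hcz.1]) (by linarith) (by norm_num)
        linarith
      have hX1 : μ * ((1 - c * (1 - q)) / μ) < 1 := by
        rw [mul_div_cancel₀ _ hμ0.ne']
        nlinarith
      refine ⟨r, (∑' n, b n * ((1 - c * (1 - q)) / μ) ^ n) + D, hr,
        fun N z' hz' => ?_⟩
      have hz'q : cs 2 z' < q := hr1 hz'.1
      have h2 := hB N z' hz'.2 (hz'q.trans hq2)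
      refine h2.trans (add_le_add ?_ le_rfl)
      refine (hxs z' hz'.2 (hz'q.trans hq2)).tsum_le_tsum (fun n => ?_) (hS _ hX0 hX1)
      refine mul_le_mul_of_nonneg_left ?_ (haa n)
      refine pow_le_pow_left₀ (hangc c hc hcc1 z' hz'.2).1.le ?_ n
      unfold xx
      refine div_le_div_of_nonneg_right ?_ hμ0.le
      nlinarith
  -- convergence in the disc
  have hDsum : ∀ z : ℂ, μ * ‖z‖ < 1 →
      Summable (fun n => (az F n : ℂ) * z ^ n) := by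
    intro z hz
    refine Summable.of_norm ?_
    have h1 := hS ‖z‖ (norm_nonneg z) hz
    refine Summable.of_nonneg_of_le (fun n => norm_nonneg _) (fun n => ?_) h1
    rw [norm_mul, norm_pow, Complex.norm_real, Real.norm_eq_abs]
    exact mul_le_mul_of_nonneg_right ((Finset.abs_sum_le_sum_abs _ _).trans (hb n))
      (pow_nonneg (norm_nonneg _) n)
  have hDlim : ∀ z : ℂ, μ * ‖z‖ < 1 →
      Tendsto (fun N => P N z) atTop (𝓝 (∑' n, (az F n : ℂ) * z ^ n)) := by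
    intro z hz
    have h1 := hS ‖z‖ (norm_nonneg z) hz
    have h2 : Tendsto (fun N : ℕ => ∑' n, b (n + (N + 1)) * ‖z‖ ^ (n + (N + 1)))
        atTop (𝓝 0) :=
      (tendsto_sum_nat_add (fun n => b n * ‖z‖ ^ n)).comp (tendsto_add_atTop_nat 1)
    have h3 : Tendsto (fun N : ℕ => ∑ n ∈ range (N + 1), (az F n : ℂ) * z ^ n) atTop
        (𝓝 (∑' n, (az F n : ℂ) * z ^ n)) :=
      (hDsum z hz).hasSum.tendsto_sum_nat.comp (tendsto_add_atTop_nat 1)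
    have h4 : Tendsto (fun N : ℕ => P N z - ∑ n ∈ range (N + 1), (az F n : ℂ) * z ^ n) atTop
        (𝓝 0) :=
      squeeze_zero_norm (fun N => hP4 N z h1) h2
    have h5 := h4.add h3
    simp only [sub_add_cancel, zero_add] at h5
    exact h5
  have hDopen : IsOpen {z : ℂ | μ * ‖z‖ < 1} := isOpen_lt (by fun_prop) continuous_const
  obtain ⟨f, hf1, hf2⟩ := Pool.Agent.N45.AC.vit (Om c μ 2) {z : ℂ | μ * ‖z‖ < 1} hO1 hO2 hDopen
    ⟨0, by simp⟩ (fun z hz => hO3 z hz) P (fun N => (hP1 N).differentiableOn) hloc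
    (fun z hz => ⟨_, hDlim z hz⟩)
  refine ⟨f, hf1, fun z hz => ?_, fun z hz hz0 hz1 => ⟨hxs z hz hz1, ?_⟩⟩
  · have h1 := tendsto_nhds_unique (hf2 z (hO3 z hz)) (hDlim z hz)
    rw [h1]
    exact (hDsum z hz).hasSum
  · have h1 := (hf2 z hz).norm
    have h2 := le_of_tendsto h1 (Eventually.of_forall fun N => hB N z hz hz1)
    linarith

end

end Run7.h106.AQ
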