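import Pool.Agent.Run7.h106.AQ.Asm
import Pool.Agent.Run7.h106.AV.Poly

/-!
# Polygons weighted by the area, the width and the height: analytic continuation relative to a free
radius
-/

set_option autoImplicit false
set_option linter.unusedVariables false

namespace Run7.h106.AQ

open Pool.Agent.H976R2 Pool.Agent.H976R2.Dir Finset Filter Topology
open Pool.Agent.N929.EX Pool.Agent.N929.EY Pool.Agent.N929.EZ
open Pool.Agent.N929.AC (Om xx cs Ext om_star s_omg)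
open Pool.Agent.H739K (KP ar lp)
open Run7.h106.AC Run7.h106.AW Run7.h106.AV
open scoped Classical

noncomputable section

/-- the representation of a functional of closed words -/
def Hp6 (G : List Dir → ℝ) (b : ℕ → ℝ) (C₀ ρ : ℝ) (p : ℕ) : Prop :=
  ∀ L : Finset (ℤ × ℤ), CF L → ∀ st fl, Fill L 0 0 st fl →
    ∃ (M : List Dir → ℝ) (s : List Dir → ℤ × ℤ → ℝ), (∀ w, 0 ≤ M w) ∧
    (∀ w q, 1 / 2 ≤ s w q ∧ s w q ≤ 2) ∧
    (∀ w, Em L 0 0 w → sq w = 1 → 3 ≤ w.length →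
      M w ≤ C₀ * ((w.length : ℝ) + 1) ^ p * ρ ^ w.length) ∧
    (∀ w, Em L 0 0 w → sq w = 1 → 3 ≤ w.length → ∃ Φ, Rp (Sl L 0 0 w) Φ (M w) ∧
      ∀ U ⊆ Sl L 0 0 w, G (fl w U) = Φ U * ∏ q ∈ U, s w q) ∧
    ∀ n, 3 ≤ n → ∑ w ∈ KP n, (if 3 ≤ (st w).length then
      M (st w) * ∏ q ∈ Oc L 0 0 w, s (st w) q else 0) ≤ b n

theorem hrQ_of_hp {G : List Dir → ℝ} {b : ℕ → ℝ} {C₀ ρ : ℝ} {p : ℕ} (hC₀ : 0 ≤ C₀) (hρ : 0 ≤ ρ)
    (hG0 : ∀ w, ¬ 3 ≤ w.length → G w = 0)
    (hb0 : ∀ n, 0 ≤ b n) (h : Hp6 G b C₀ ρ p) : HrQ (fun w => cl w * G w) b C₀ ρ p := by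
  intro L hL st fl hfl
  obtain ⟨M, s, hM0, hs0, hM3, hM1, hM2⟩ := h L hL st fl hfl
  refine ⟨fun w => if sq w = 1 ∧ 3 ≤ w.length then M w else 0, s, fun w => ?_, hs0, fun w hw => ?_,
    fun w hw => ?_, fun n => ?_⟩ <;> beta_reduce
  · split_ifs
    · exact hM0 w
    · exact le_rfl
  · split_ifs with h1
    · exact hM3 w hw h1.1 h1.2
    · positivity
  · have hcl : ∀ U ⊆ Sl L 0 0 w, cl (fl w U) = cl w := fun U hU => cl_fl hfl hw hU
    by_cases hs : sq w = 1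
    · have hcw : cl w = 1 := by unfold Pool.Agent.N929.EZ.cl; rw [if_pos hs]
      by_cases h3 : 3 ≤ w.length
      · rw [if_pos ⟨hs, h3⟩]
        obtain ⟨Φ, h4, h5⟩ := hM1 w hw hs h3
        refine ⟨Φ, h4, fun U hU => ?_⟩
        rw [hcl U hU, hcw, one_mul, h5 U hU]
      · rw [if_neg (fun h => h3 h.2)]
        have hS := no_slots (L := L) h3
        refine ⟨fun _ => 0, Rp.zero, fun U hU => ?_⟩
        rw [hS, subset_empty] at hU
        subst hU
        rw [hfl.fl_empty w hw, hG0 w h3, mul_zero, zero_mul]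
    · have hcw : cl w = 0 := by unfold Pool.Agent.N929.EZ.cl; rw [if_neg hs]
      rw [if_neg (fun h => hs h.1)]
      refine ⟨fun _ => 0, Rp.zero, fun U hU => ?_⟩
      rw [hcl U hU, hcw, zero_mul, zero_mul]
  · by_cases hn : 3 ≤ n
    · refine le_trans (le_of_eq ?_) (hM2 n hn)
      unfold KP
      rw [sum_filter]
      refine sum_congr rfl (fun w hw => ?_)
      have hl := len_SW hw
      have hw' : w ∈ SW w.length := by rw [hl]; exact hw
      obtain ⟨e5, -⟩ := cl_st hfl hw'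
      by_cases a1 : sq w = 1
      · rw [if_pos a1]
        by_cases a2 : 3 ≤ (st w).length
        · rw [if_pos ⟨e5.2 a1, a2⟩, if_pos a2]
        · rw [if_neg (fun h => a2 h.2), if_neg a2, zero_mul]
      · rw [if_neg a1, if_neg (fun h => a1 (e5.1 h.1)), zero_mul]
    · rw [sum_eq_zero]
      · exact hb0 n
      · intro w hw
        have hl := len_SW hw
        have hw' : w ∈ SW w.length := by rw [hl]; exact hw
        have e6 := hfl.st_len w (by omega) hw'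
        rw [if_neg, zero_mul]
        intro h
        omega

/-- a holomorphic extension -/
def Ep (c ν : ℝ) (G : List Dir → ℝ) (F : ℂ → ℂ) : Prop :=
  DifferentiableOn ℂ F (Om c ν 2) ∧ ∀ z : ℂ, ν * ‖z‖ < 1 →
    HasSum (fun n : ℕ => (((∑ w ∈ KP (2 * (n + 2) - 1), G w) /
      (4 * ((n + 2 : ℕ) : ℝ)) : ℝ) : ℂ) * z ^ (2 * (n + 2))) (F z)

/-- analytic continuation for two functionals of closed words, relative to a free radius -/
theorem kpQ : ∃ κ : ℝ, 1 < κ ∧ κ ≤ 2 ∧ ∃ c : ℝ, 0 < c ∧ c ≤ 1 / 4 ∧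
    ∀ (C₀ : ℝ) (p : ℕ) (A : ℝ), 0 ≤ C₀ → 1 ≤ A → ∃ C : ℝ, 0 < C ∧
    ∀ ν : ℝ, 1 ≤ ν → H981.mu ≤ κ * ν → ν ≤ κ * H981.mu → ∀ G G₁ : List Dir → ℝ,
      (∀ w, 0 ≤ G w ∧ G w ≤ G₁ w) → (∀ w, ¬ 3 ≤ w.length → G₁ w = 0) →
      Hp6 G (fun n => A * ∑ w ∈ KP n, G₁ w) C₀ κ p →
      Hp6 G₁ (fun n => A * ∑ w ∈ KP n, G₁ w) C₀ κ p →
      (∀ x : ℝ, 0 ≤ x → ν * x < 1 → Summable (fun n : ℕ => (∑ w ∈ KP n, G₁ w) * x ^ n)) →
      ∃ F F₁ : ℂ → ℂ, Ep c ν G F ∧ Ep c ν G₁ F₁ ∧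
      ∀ z ∈ Om c ν 2, z ≠ 0 → cs 2 z < 1 →
        ‖deriv F z‖ ≤ C * (1 + ‖deriv F₁ (xx c ν 2 z : ℂ)‖) ∧
        ‖deriv F₁ z‖ ≤ C * (1 + ‖deriv F₁ (xx c ν 2 z : ℂ)‖) := by
  obtain ⟨μ, K, hμ, hK, hlow, hupp, -⟩ := s_gen
  have hmu := mu_eq hμ hK hlow hupp
  obtain ⟨κ, hκ1, hκ2, c, hc, hc4, h⟩ := acQ (show 2 ≤ μ by linarith) hK hupp
  rw [hmu] at h hμ
  refine ⟨κ, hκ1, hκ2, c, hc, hc4, fun C₀ p A hC₀ hA => ?_⟩
  obtain ⟨C, hC, h'⟩ := h C₀ p hC₀
  refine ⟨max C A, lt_max_of_lt_left hC, fun ν hν hν1 hν2 G G₁ hG hG3 hHp hHp1 hS => ?_⟩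
  have hG10 : ∀ w, 0 ≤ G₁ w := fun w => (hG w).1.trans (hG w).2
  have hG03 : ∀ w, ¬ 3 ≤ w.length → G w = 0 := fun w hw =>
    le_antisymm ((hG w).2.trans (le_of_eq (hG3 w hw))) (hG w).1
  have hu : ∀ n, 0 ≤ ∑ w ∈ KP n, G₁ w := fun n => sum_nonneg fun w _ => hG10 w
  have e : ∀ (H : List Dir → ℝ) n, ∑ w ∈ SW n, Pool.Agent.N929.EZ.cl w * H w = ∑ w ∈ KP n, H w :=
    fun H n => sum_cl n H
  have main : ∀ H : List Dir → ℝ, (∀ w, 0 ≤ H w ∧ H w ≤ G₁ w) → (∀ w, ¬ 3 ≤ w.length → H w = 0) →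
      Hp6 H (fun n => A * ∑ w ∈ KP n, G₁ w) C₀ κ p →
      ∃ f F : ℂ → ℂ, Ext c ν 2 (fun n => ∑ w ∈ KP n, H w) f ∧
        (∀ z ∈ Om c ν 2, HasDerivAt F (f z / 2) z) ∧ Ep c ν H F ∧
        ∀ z ∈ Om c ν 2, z ≠ 0 → cs 2 z < 1 →
          ‖f z‖ ≤ C + ∑' n, A * (∑ w ∈ KP n, G₁ w) * xx c ν 2 z ^ n := by
    intro H hH hH3 hHpH
    obtain ⟨f, f1, f2, f3⟩ := h' ν hν hν1 hν2 (fun w => Pool.Agent.N929.EZ.cl w * H w)
      (fun n => A * ∑ w ∈ KP n, G₁ w)
      (fun n => by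
        rw [sum_congr rfl fun w _ => abs_of_nonneg (mul_nonneg (cl_nonneg w) (hH w).1), e]
        have h1 : ∑ w ∈ KP n, H w ≤ ∑ w ∈ KP n, G₁ w := sum_le_sum fun w _ => (hH w).2
        have := hu n
        nlinarith)
      (fun x hx0 hx => by
        have h1 := (hS x hx0 hx).mul_left A
        refine h1.congr fun n => ?_
        ring)
      (hrQ_of_hp hC₀ (by linarith) hH3 (fun n => mul_nonneg (by linarith) (hu n)) hHpH)
    have hE : Ext c ν 2 (fun n => ∑ w ∈ KP n, H w) f := by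
      refine ⟨f1, fun z hz => ?_⟩
      have h1 := f2 z hz
      have e' : ∀ n, az (fun w => Pool.Agent.N929.EZ.cl w * H w) n = ∑ w ∈ KP n, H w := fun n => e H n
      simp only [e'] at h1
      exact h1
    obtain ⟨F, F1, F2⟩ := poly_nu hc hν hH3 hE
    exact ⟨f, F, hE, F1, ⟨fun z hz => (F1 z hz).differentiableAt.differentiableWithinAt, F2⟩,
      fun z hz hz0 hz1 => (f3 z hz hz0 hz1).2⟩
  obtain ⟨f, F, g1, g2, g3, g4⟩ := main G hG hG03 hHp
  obtain ⟨f', F', k1, k2, k3, k4⟩ := main G₁ (fun w => ⟨hG10 w, le_rfl⟩) hG3 hHp1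
  refine ⟨F, F', g3, k3, fun z hz hz0 hz1 => ?_⟩
  have h2 := g4 z hz hz0 hz1
  have h2' := k4 z hz hz0 hz1
  have h3 : ∑' n, A * (∑ w ∈ KP n, G₁ w) * xx c ν 2 z ^ n = A * ‖f' (xx c ν 2 z : ℂ)‖ := by
    rw [← at_nu hc hc4 hν hu k1.2 hz1, ← tsum_mul_left]
    refine tsum_congr fun n => ?_
    ring
  rw [h3] at h2 h2'
  obtain ⟨hx0, hx⟩ := xx_nu hc hc4 hν hz1
  have hxm : (xx c ν 2 z : ℂ) ∈ Om c ν 2 := by
    refine (dom_nu hc hν).2.2.1 _ ?_
    rw [Complex.norm_real, Real.norm_of_nonneg hx0.le]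
    exact hx
  have h4 := norm_nonneg (f' (xx c ν 2 z : ℂ))
  have h5 := le_max_left C A
  have h6 := le_max_right C A
  rw [(g2 z hz).deriv, (k2 z hz).deriv, (k2 _ hxm).deriv, norm_div, norm_div, norm_div,
    Complex.norm_ofNat]
  constructor <;> nlinarith

/-- the functional: power of `t` with the area as exponent, power of the area (plus a multiple of the
half-perimeter), function of the width and the height -/
def QF (a : ℝ) (k : ℕ) (t : ℝ) (g : ℕ → ℕ → ℝ) (w : List Dir) : ℝ :=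
  if 3 ≤ w.length then t ^ (ar w) * ((ar w : ℝ) + a * (((w.length : ℝ) + 1) / 2)) ^ k *
    g (mxx w - mnx w).toNat (mxy w - mny w).toNat else 0

theorem QF_nonneg {a : ℝ} (ha : 0 ≤ a) (k : ℕ) {t : ℝ} (ht : 0 ≤ t) {B h₀ : ℝ} {g : ℕ → ℕ → ℝ}
    (hg : Rg B h₀ g) (w : List Dir) : 0 ≤ QF a k t g w := by
  unfold QF
  split_ifs
  · have := (hg.1 (mxx w - mnx w).toNat (mxy w - mny w).toNat).1
    positivity
  · exact le_rfl

theorem QF_le {k : ℕ} {t : ℝ} (ht : 0 ≤ t) {B h₀ : ℝ} {g : ℕ → ℕ → ℝ}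
    (hg : Rg B h₀ g) (w : List Dir) : QF 0 k t g w ≤ QF 1 k t g w := by
  unfold QF
  split_ifs
  · have := (hg.1 (mxx w - mnx w).toNat (mxy w - mny w).toNat).1
    refine mul_le_mul_of_nonneg_right (mul_le_mul_of_nonneg_left
      (pow_le_pow_left₀ (by positivity) ?_ k) (by positivity)) this
    have h1 : (0 : ℝ) ≤ ((w.length : ℝ) + 1) / 2 := by positivity
    linarith
  · exact le_rfl

theorem QF_hp {κ B : ℝ} (hκ : 1 < κ) (hB : 1 ≤ B) {g : ℕ → ℕ → ℝ}
    (hg : Rg B (Real.log κ / 2) g) {t : ℝ} (ht : 1 / 2 ≤ t) (ht1 : t ≤ 1) (k : ℕ) {a : ℝ}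
    (ha : 0 ≤ a) (ha1 : a ≤ 1) :
    Hp6 (QF a k t g) (fun n => (81 * B ^ 2 * 12 ^ k) * ∑ w ∈ KP n, QF 1 k t g w)
      (81 * B ^ 2 * 9 ^ k) κ (2 * k) := by
  have hB0 : 0 ≤ B := by linarith
  have hκ0 : 0 < κ := by linarith
  have hlog : 0 < Real.log κ := Real.log_pos hκ
  have ht0 : 0 < t := by linarith
  intro L hL st fl hfl
  refine ⟨fun w => t ^ (ar w) * ((ar w : ℝ) + a * (((w.length : ℝ) + 1) / 2) +
      4 * ((Sl L 0 0 w).card : ℝ)) ^ k *
      (81 * (B * g (mxx w - mnx w).toNat (mxy w - mny w).toNat)), fun w q => t ^ sg w q,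
    fun w => ?_, fun w q => rp_one ht ht1 (sg_abs w q),
    fun w hw hs h3 => ?_, fun w hw hs h3 => ?_, fun n hn => ?_⟩
  · have := (hg.1 (mxx w - mnx w).toNat (mxy w - mny w).toNat).1
    positivity
  · obtain ⟨e1, e2⟩ := ext_le w
    obtain ⟨e3, e4⟩ := ext_nonneg w
    have h1 := (hg.1 (mxx w - mnx w).toNat (mxy w - mny w).toNat).2
    have h10 := (hg.1 (mxx w - mnx w).toNat (mxy w - mny w).toNat).1
    have h2 : (((mxx w - mnx w).toNat : ℝ)) + ((mxy w - mny w).toNat : ℝ) ≤ 2 * w.length := by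
      have : (mxx w - mnx w).toNat + (mxy w - mny w).toNat ≤ 2 * w.length := by omega
      exact_mod_cast this
    have h3' : Real.exp (Real.log κ / 2 * ((((mxx w - mnx w).toNat : ℝ)) +
        ((mxy w - mny w).toNat : ℝ))) ≤ κ ^ w.length := by
      calc _ ≤ Real.exp (w.length * Real.log κ) := by
            refine Real.exp_le_exp.2 ?_
            nlinarith
        _ = κ ^ w.length := by rw [Real.exp_nat_mul, Real.exp_log hκ0]
    have h4 : g (mxx w - mnx w).toNat (mxy w - mny w).toNat ≤ B * κ ^ w.length :=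
      h1.trans (mul_le_mul_of_nonneg_left h3' hB0)
    obtain ⟨X, hX⟩ : ∃ X : ℝ, X = (w.length : ℝ) + 1 := ⟨_, rfl⟩
    have hX1 : 1 ≤ X := by
      rw [hX]
      have : (0 : ℝ) ≤ w.length := Nat.cast_nonneg _
      linarith
    have h5 : (ar w : ℝ) ≤ 4 * X ^ 2 := by
      rw [hX]
      exact ar_le h3 (mem_KP hw.2.1 hs)
    have h6 : ((Sl L 0 0 w).card : ℝ) ≤ X := by
      have e6 := sl_card hL (a := 0) (l := 0) w
      rw [hX]
      have : (Sl L 0 0 w).card ≤ w.length + 1 := by omega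
      exact_mod_cast this
    have h7 : (ar w : ℝ) + a * (((w.length : ℝ) + 1) / 2) + 4 * ((Sl L 0 0 w).card : ℝ) ≤
        9 * X ^ 2 := by
      rw [← hX]
      nlinarith
    have h8 : t ^ (ar w) ≤ 1 := pow_le_one₀ ht0.le ht1
    calc t ^ (ar w) * ((ar w : ℝ) + a * (((w.length : ℝ) + 1) / 2) +
          4 * ((Sl L 0 0 w).card : ℝ)) ^ k *
          (81 * (B * g (mxx w - mnx w).toNat (mxy w - mny w).toNat))
        ≤ 1 * (9 * X ^ 2) ^ k * (81 * (B * (B * κ ^ w.length))) := by gcongr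
      _ = _ := by
          rw [← hX, mul_pow, ← pow_mul]
          ring
  · obtain ⟨e3, e4⟩ := ext_nonneg w
    refine ⟨fun U => t ^ (ar w) * ((ar (fl w U) : ℝ) + a * (((fl w U).length + 1) / 2)) ^ k *
      g (mxx (fl w U) - mnx (fl w U)).toNat (mxy (fl w U) - mny (fl w U)).toNat, ?_,
      fun U hU => ?_⟩
    · have h2 := ext_rep hL hfl hw (fun a b => g a.toNat b.toNat)
        (B * g (mxx w - mnx w).toNat (mxy w - mny w).toNat)
        (fun i j h1 h2 h3 h4 => by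
          rw [abs_of_nonneg (hg.1 _ _).1]
          have a1 : (mxx w - mnx w + i).toNat = (mxx w - mnx w).toNat + i.toNat := by omega
          have a2 : (mxy w - mny w + j).toNat = (mxy w - mny w).toNat + j.toNat := by omega
          rw [a1, a2]
          exact (hg.2 _ _ _ _ (by omega) (by omega)).1)
      have h4 := (((Rp.const (E := Sl L 0 0 w) ((ar w : ℝ) + a * (((w.length : ℝ) + 1) / 2))).add
        (Rp.lin (E := Sl L 0 0 w) (fun q => sg w q + a))).pow k).mono (show _ ≤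
          ((ar w : ℝ) + a * (((w.length : ℝ) + 1) / 2) + 4 * ((Sl L 0 0 w).card : ℝ)) ^ k by
          refine pow_le_pow_left₀ (by positivity) ?_ k
          rw [abs_of_nonneg (by positivity)]
          have h5 : ∑ q ∈ Sl L 0 0 w, |sg w q + a| ≤ 2 * ((Sl L 0 0 w).card : ℝ) := by
            have := sum_le_card_nsmul (Sl L 0 0 w) (fun q => |sg w q + a|) 2 fun q _ => by
              refine (abs_add_le _ _).trans ?_
              rw [sg_abs, abs_of_nonneg ha]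
              linarith
            rw [nsmul_eq_mul] at this
            linarith
          linarith)
      have h6 := ((Rp.const (E := Sl L 0 0 w) (t ^ (ar w))).mul h4).mul h2
      rw [abs_of_nonneg (by positivity)] at h6
      refine h6.congr fun U hU => ?_
      have h7 := ar_fl hL hfl hw h3 hs hU
      have h8 := hfl.fl_len w U hw hU
      rw [h7, h8, sum_add_distrib, sum_const, nsmul_eq_mul]
      push_cast
      congr 3
      ring
    · have h1 := ar_fl hL hfl hw h3 hs hU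
      unfold QF
      rw [if_pos (by rw [hfl.fl_len w U hw hU]; omega)]
      have h2 : t ^ ar (fl w U) = t ^ (ar w) * ∏ q ∈ U, t ^ sg w q := by
        rw [← Real.rpow_natCast, h1, Real.rpow_add ht0, Real.rpow_natCast,
          Real.rpow_sum_of_pos ht0]
      rw [h2]
      ring
  · beta_reduce
    rw [mul_sum]
    refine sum_le_sum fun w hw => ?_
    obtain ⟨hwn, hs, hl⟩ := KP_mem hw
    have hw' : w ∈ SW w.length := by rw [hl]; exact hwn
    have h0 := QF_nonneg (a := 1) zero_le_one k ht0.le hg w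
    split_ifs with h3
    · obtain ⟨i, j, hi, hj, e1, e2⟩ := ext_st hL hfl hw'
      have h4 := (hg.2 (mxx (st w) - mnx (st w)).toNat (mxy (st w) - mny (st w)).toNat i j hi hj).2
      rw [← e1, ← e2] at h4
      have h40 := (hg.1 (mxx (st w) - mnx (st w)).toNat (mxy (st w) - mny (st w)).toNat).1
      have h41 := (hg.1 (mxx w - mnx w).toNat (mxy w - mny w).toNat).1
      obtain ⟨e5, e6, e7, e8⟩ := cl_st hfl hw'
      have e9 := ar_fl hL hfl e6 h3 (e5.2 hs) e7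
      rw [e8] at e9
      have h5 : t ^ ar w = t ^ (ar (st w)) * ∏ q ∈ Oc L 0 0 w, t ^ sg (st w) q := by
        rw [← Real.rpow_natCast, e9, Real.rpow_add ht0, Real.rpow_natCast,
          Real.rpow_sum_of_pos ht0]
      have e10 := hfl.st_len w (by omega) hw'
      have e11 := sl_card hL (a := 0) (l := 0) (st w)
      have hsl : ((Sl L 0 0 (st w)).card : ℝ) ≤ (n : ℝ) + 1 := by
        have : (Sl L 0 0 (st w)).card ≤ n + 1 := by omega
        exact_mod_cast this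
      have hoc : ((Oc L 0 0 w).card : ℝ) ≤ (n : ℝ) + 1 := by
        have : (Oc L 0 0 w).card ≤ n + 1 := by omega
        exact_mod_cast this
      have hst : ((st w).length : ℝ) ≤ n := by
        have : (st w).length ≤ n := by omega
        exact_mod_cast this
      have a1 : |∑ q ∈ Oc L 0 0 w, sg (st w) q| ≤ ((Oc L 0 0 w).card : ℝ) := by
        refine (abs_sum_le_sum_abs _ _).trans ?_
        rw [sum_congr rfl (fun q _ => sg_abs (st w) q)]
        simp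
      have a2 := (abs_le.1 a1).1
      have har : (0 : ℝ) ≤ ar w := Nat.cast_nonneg _
      have hn0 : (0 : ℝ) ≤ n := Nat.cast_nonneg _
      have hln : (w.length : ℝ) = n := by rw [hl]
      have h6 : (ar (st w) : ℝ) + a * ((((st w).length : ℝ) + 1) / 2) +
          4 * ((Sl L 0 0 (st w)).card : ℝ) ≤ 12 * ((ar w : ℝ) + 1 * (((w.length : ℝ) + 1) / 2)) := by
        rw [hln]
        have h7 : a * ((((st w).length : ℝ) + 1) / 2) ≤ 1 * (((n : ℝ) + 1) / 2) := by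
          refine mul_le_mul ha1 (by linarith) (by positivity) zero_le_one
        linarith
      unfold QF
      rw [if_pos (by omega)]
      have hP : 0 ≤ t ^ (ar (st w)) * ∏ q ∈ Oc L 0 0 w, t ^ sg (st w) q := by
        rw [← h5]
        positivity
      calc t ^ (ar (st w)) * ((ar (st w) : ℝ) + a * ((((st w).length : ℝ) + 1) / 2) +
            4 * ((Sl L 0 0 (st w)).card : ℝ)) ^ k *
            (81 * (B * g (mxx (st w) - mnx (st w)).toNat (mxy (st w) - mny (st w)).toNat)) *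
            ∏ q ∈ Oc L 0 0 w, t ^ sg (st w) q
          = (t ^ (ar (st w)) * ∏ q ∈ Oc L 0 0 w, t ^ sg (st w) q) *
            (((ar (st w) : ℝ) + a * ((((st w).length : ℝ) + 1) / 2) +
            4 * ((Sl L 0 0 (st w)).card : ℝ)) ^ k *
            (81 * (B * g (mxx (st w) - mnx (st w)).toNat (mxy (st w) - mny (st w)).toNat))) := by
            ring
        _ ≤ (t ^ (ar (st w)) * ∏ q ∈ Oc L 0 0 w, t ^ sg (st w) q) *
            ((12 * ((ar w : ℝ) + 1 * (((w.length : ℝ) + 1) / 2))) ^ k *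
            (81 * (B * (B * g (mxx w - mnx w).toNat (mxy w - mny w).toNat)))) := by
            refine mul_le_mul_of_nonneg_left ?_ hP
            gcongr
        _ = _ := by
            rw [← h5, mul_pow]
            ring
    · positivity

/-- convergence for the functional with powers of the area -/
theorem QF_conv {ν : ℝ} (hν : 1 ≤ ν) {t : ℝ} (ht : 0 ≤ t) {B h₀ : ℝ} {g : ℕ → ℕ → ℝ}
    (hg : Rg B h₀ g) (k : ℕ)
    (h : ∀ x : ℝ, 0 ≤ x → ν * x < 1 → Summable (fun n : ℕ => (∑ w ∈ KP n, QF 0 0 t g w) * x ^ n)) :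
    ∀ x : ℝ, 0 ≤ x → ν * x < 1 → Summable (fun n : ℕ => (∑ w ∈ KP n, QF 1 k t g w) * x ^ n) := by
  intro x hx0 hx
  have hν0 : 0 < ν := by linarith
  have h1 : x < 1 / ν := by
    rw [lt_div_iff₀ hν0, mul_comm]
    exact hx
  obtain ⟨y, hy1, hy2⟩ := exists_between h1
  have hy0 : 0 < y := hx0.trans_lt hy1
  have hy3 : ν * y < 1 := by
    rw [lt_div_iff₀ hν0, mul_comm] at hy2
    exact hy2
  obtain ⟨r, hr⟩ : ∃ r, r = x / y := ⟨_, rfl⟩
  have hxr : x = y * r := by rw [hr]; field_simp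
  have hr0 : 0 ≤ r := by rw [hr]; positivity
  have hr1 : r < 1 := by rw [hr, div_lt_one hy0]; exact hy1
  obtain ⟨C, hC⟩ : ∃ C : ℝ, ∀ n : ℕ, ((n : ℝ) + 1) ^ (2 * k) * r ^ n ≤ C := by
    obtain ⟨C, hC⟩ := (Pool.Agent.N738.AC.sum_pp (2 * k) r hr0 hr1).tendsto_atTop_zero.bddAbove_range
    exact ⟨C, fun n => hC ⟨n, rfl⟩⟩
  have hu : ∀ n, 0 ≤ ∑ w ∈ KP n, QF 0 0 t g w := fun n =>
    sum_nonneg fun w _ => QF_nonneg le_rfl 0 ht hg w
  refine Summable.of_nonneg_of_le (fun n => ?_) (fun n => ?_) ((h y hy0.le hy3).mul_left (5 ^ k * C))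
  · exact mul_nonneg (sum_nonneg fun w _ => QF_nonneg zero_le_one k ht hg w) (pow_nonneg hx0 _)
  · have h2 : ∑ w ∈ KP n, QF 1 k t g w ≤
        (5 ^ k * ((n : ℝ) + 1) ^ (2 * k)) * ∑ w ∈ KP n, QF 0 0 t g w := by
      rw [mul_sum]
      refine sum_le_sum fun w hw => ?_
      obtain ⟨hwn, hs, hl⟩ := KP_mem hw
      have h41 := (hg.1 (mxx w - mnx w).toNat (mxy w - mny w).toNat).1
      unfold QF
      split_ifs with h3
      · have h4 := ar_le (by omega) hw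
        have hn0 : (0 : ℝ) ≤ n := Nat.cast_nonneg _
        have hln : (w.length : ℝ) = n := by rw [hl]
        have h5 : (ar w : ℝ) + 1 * (((w.length : ℝ) + 1) / 2) ≤ 5 * ((n : ℝ) + 1) ^ 2 := by
          rw [hln]
          nlinarith
        have h6 : ((ar w : ℝ) + 1 * (((w.length : ℝ) + 1) / 2)) ^ k ≤
            5 ^ k * ((n : ℝ) + 1) ^ (2 * k) := by
          calc _ ≤ (5 * ((n : ℝ) + 1) ^ 2) ^ k := pow_le_pow_left₀ (by positivity) h5 k
            _ = _ := by rw [mul_pow, ← pow_mul]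
        calc t ^ ar w * ((ar w : ℝ) + 1 * (((w.length : ℝ) + 1) / 2)) ^ k *
              g (mxx w - mnx w).toNat (mxy w - mny w).toNat
            ≤ t ^ ar w * (5 ^ k * ((n : ℝ) + 1) ^ (2 * k)) *
              g (mxx w - mnx w).toNat (mxy w - mny w).toNat := by gcongr
          _ = _ := by rw [pow_zero]; ring
      · positivity
    calc (∑ w ∈ KP n, QF 1 k t g w) * x ^ n
        ≤ ((5 ^ k * ((n : ℝ) + 1) ^ (2 * k)) * ∑ w ∈ KP n, QF 0 0 t g w) * x ^ n :=
          mul_le_mul_of_nonneg_right h2 (pow_nonneg hx0 _)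
      _ = (5 ^ k * (((n : ℝ) + 1) ^ (2 * k) * r ^ n)) * ((∑ w ∈ KP n, QF 0 0 t g w) * y ^ n) := by
          rw [hxr, mul_pow]
          ring
      _ ≤ (5 ^ k * C) * ((∑ w ∈ KP n, QF 0 0 t g w) * y ^ n) := by
          refine mul_le_mul_of_nonneg_right (mul_le_mul_of_nonneg_left (hC n) (by positivity)) ?_
          exact mul_nonneg (hu n) (by positivity)

/-- the sum over loops -/
theorem loop_QF {n : ℕ} (hn : 2 ≤ n) (a : ℝ) (k : ℕ) (t : ℝ) (g : ℕ → ℕ → ℝ) :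
    ∑ᶠ f ∈ {f : ZMod (2 * n) → ℤ × ℤ | Pool.Agent.H924P.IsLoop (2 * n) f},
      t ^ (Pool.Agent.H924P.area (2 * n) f) *
        ((Pool.Agent.H924P.area (2 * n) f : ℝ) + a * n) ^ k *
        g (Pool.Agent.H924P.width (2 * n) f) (Pool.Agent.H924P.height (2 * n) f) =
      ∑ w ∈ KP (2 * n - 1), QF a k t g w := by
  rw [loop_sum hn]
  refine sum_congr rfl fun w hw => ?_
  obtain ⟨h1, h2, h3⟩ := width_word hn hw
  have hl := (KP_mem hw).2.2
  unfold QF
  rw [if_pos (by omega), h3, ← h1, ← h2]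
  simp only [Int.toNat_natCast]
  have e : ((w.length : ℝ) + 1) / 2 = n := by
    have h4 : w.length + 1 = 2 * n := by omega
    have h5 : ((w.length + 1 : ℕ) : ℝ) = ((2 * n : ℕ) : ℝ) := by rw [h4]
    push_cast at h5
    linarith
  rw [e]

end

end Run7.h106.AQ
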